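import Pool.Agent.Q191.TW.Axi
import Pool.Agent.W28.QAT.SS
import Pool.Agent.W613.QAT.Cont

/-!
Operators on functions of lists which change the number of strands and commute with `E`.
-/

set_option autoImplicit false

namespace Pool.Agent.Q191.TB

open Matrix Finset Pool.Agent.H550R3.Jones Pool.Agent.W715.VC Pool.Agent.Q191.TW
open Pool.Agent.W709.QAT (Piece)

variable {N : ℕ}

/-- linear operators from `p'` strands to `p` strands which preserve the weight and commute
with `E` -/
structure Gd (p p' : ℕ) (O : (List (Fin N) → ℂ) → List (Fin N) → ℂ) : Prop where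
  add : ∀ f g l, l.length = p → O (fun l' => f l' + g l') l = O f l + O g l
  smul : ∀ (c : ℂ) f l, l.length = p → O (fun l' => c * f l') l = c * O f l
  loc : ∀ f g l, l.length = p → (∀ l', l'.length = p' → kl l' = kl l → f l' = g l') →
    O f l = O g l
  comm : ∀ f l, l.length = p → EL l (O f) = O (fun l' => EL l' f) l

theorem Gd.zero {p p' : ℕ} {O : (List (Fin N) → ℂ) → List (Fin N) → ℂ} (h : Gd p p' O)
    (l : List (Fin N)) (hl : l.length = p) : O (fun _ => 0) l = 0 := by
  have := h.smul 0 (fun _ => 0) l hl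
  simpa using this

theorem Gd.sum {p p' : ℕ} {O : (List (Fin N) → ℂ) → List (Fin N) → ℂ} (h : Gd p p' O) {ι : Type}
    (s : Finset ι) (f : ι → List (Fin N) → ℂ) (l : List (Fin N)) (hl : l.length = p) :
    O (fun l' => ∑ i ∈ s, f i l') l = ∑ i ∈ s, O (f i) l := by
  classical
  induction s using Finset.induction_on with
  | empty => simp only [Finset.sum_empty]; exact h.zero l hl
  | insert i s hi ih => simp only [Finset.sum_insert hi]; rw [h.add _ _ l hl, ih]

theorem Gd_id (p : ℕ) : Gd (N := N) p p (fun f => f) where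
  add _ _ _ _ := rfl
  smul _ _ _ _ := rfl
  loc _ _ l hl h := h l hl rfl
  comm _ _ _ := rfl

theorem Gd.comp {p p' p'' : ℕ} {O O' : (List (Fin N) → ℂ) → List (Fin N) → ℂ} (h : Gd p p' O)
    (h' : Gd p' p'' O') : Gd p p'' (fun f => O (O' f)) where
  add f g l hl := by
    rw [← h.add _ _ l hl]
    exact h.loc _ _ l hl fun l' hl' _ => h'.add f g l' hl'
  smul c f l hl := by
    rw [← h.smul _ _ l hl]
    exact h.loc _ _ l hl fun l' hl' _ => h'.smul c f l' hl'
  loc f g l hl hfg := h.loc _ _ l hl fun l' hl' hk => h'.loc _ _ l' hl' fun l'' hl'' hk' =>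
    hfg l'' hl'' (hk'.trans hk)
  comm f l hl := by
    rw [h.comm _ l hl]
    exact h.loc _ _ l hl fun l' hl' _ => h'.comm f l' hl'

theorem Gd.congr {p p' : ℕ} {O O' : (List (Fin N) → ℂ) → List (Fin N) → ℂ} (h : Gd p p' O)
    (e : ∀ f l, l.length = p → O' f l = O f l) : Gd p p' O' where
  add f g l hl := by rw [e _ l hl, e _ l hl, e _ l hl, h.add _ _ l hl]
  smul c f l hl := by rw [e _ l hl, e _ l hl, h.smul _ _ l hl]
  loc f g l hl hfg := by rw [e _ l hl, e _ l hl]; exact h.loc _ _ l hl hfg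
  comm f l hl := by
    rw [e _ l hl, ← h.comm f l hl]
    exact EL_loc l _ _ fun l' hl' => e f l' (by rw [hl', hl])

/-- one more strand on the left -/
def sh1 (O : (List (Fin N) → ℂ) → List (Fin N) → ℂ) : (List (Fin N) → ℂ) → List (Fin N) → ℂ :=
  fun f l => match l with
    | [] => 0
    | a :: r => O (fun r' => f (a :: r')) r

theorem Gd.sh {p p' : ℕ} {O : (List (Fin N) → ℂ) → List (Fin N) → ℂ} (h : Gd p p' O) :
    Gd (p + 1) (p' + 1) (sh1 O) where
  add f g l hl := by
    rcases l with _ | ⟨a, r⟩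
    · simp at hl
    · exact h.add _ _ r (by simpa using hl)
  smul c f l hl := by
    rcases l with _ | ⟨a, r⟩
    · simp at hl
    · exact h.smul c _ r (by simpa using hl)
  loc f g l hl hfg := by
    rcases l with _ | ⟨a, r⟩
    · simp at hl
    · refine h.loc _ _ r (by simpa using hl) fun r' hr' hk => hfg (a :: r') (by simp [hr']) ?_
      simp only [kl, hk]
  comm f l hl := by
    rcases l with _ | ⟨a, r⟩
    · simp at hl
    · have hr : r.length = p := by simpa using hl
      have e1 : EL (a :: r) (sh1 O f) = (∑ b, Eo N a b * kl r * O (fun r' => f (b :: r')) r) +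
          EL r (O fun r'' => f (a :: r'')) := rfl
      have e2 : sh1 O (fun l' => EL l' f) (a :: r) =
          O (fun r' => (∑ b, Eo N a b * kl r' * f (b :: r')) + EL r' (fun r'' => f (a :: r'')))
            r := rfl
      rw [e1, e2, h.comm _ r hr]
      have e3 : O (fun r' => (∑ b, Eo N a b * kl r' * f (b :: r')) +
          EL r' (fun r'' => f (a :: r''))) r =
          O (fun r' => (∑ b, (Eo N a b * kl r) * f (b :: r')) + EL r' (fun r'' => f (a :: r''))) r :=
        h.loc _ _ r hr fun r' _ hk => by rw [hk]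
      rw [e3, h.add _ _ r hr, h.sum _ _ r hr]
      congr 1
      exact Finset.sum_congr rfl fun b _ => (h.smul _ _ r hr).symm

/-! ### crossings -/

theorem kl_of_wl {l l' : List (Fin N)} (h1 : l'.length = l.length) (h2 : wl l' = wl l) :
    kl l' = kl l := by rw [kl_eq, kl_eq, h1, h2]

theorem Gd_ob {A : Mt N} (hA : Wp A) (hE : A * EE N = EE N * A) (j p : ℕ) :
    Gd p p (fun f l => ob A j l f) where
  add f g l _ := ob_add A j l f g
  smul c f l _ := ob_smul A c j l f
  loc f g l hl h := ob_congr hA j l f g fun l' h1 h2 => h l' (by rw [h1, hl]) (kl_of_wl h1 h2)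
  comm f l _ := EL_ob hA hE j l f

theorem Wp_mul {A B : Mt N} (hA : Wp A) (hB : Wp B) : Wp (A * B) := by
  intro p q h
  rw [Matrix.mul_apply] at h
  obtain ⟨u, _, hu⟩ := Finset.exists_ne_zero_of_sum_ne_zero h
  have h1 := hA p u (left_ne_zero_of_mul hu)
  have h2 := hB u q (right_ne_zero_of_mul hu)
  omega

theorem Wp_one : Wp (1 : Mt N) := by
  intro p q h
  rw [Matrix.one_apply] at h
  split_ifs at h with h1
  · rw [h1]
  · exact absurd rfl h

theorem Wp_pow {A : Mt N} (hA : Wp A) : ∀ m : ℕ, Wp (A ^ m)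
  | 0 => by rw [pow_zero]; exact Wp_one
  | m + 1 => by rw [pow_succ]; exact Wp_mul (Wp_pow hA m) hA

theorem pow_EE {A : Mt N} (hE : A * EE N = EE N * A) (m : ℕ) : A ^ m * EE N = EE N * A ^ m :=
  (Commute.pow_left (show Commute A (EE N) from hE) m)

/-- the crossing matrix -/
noncomputable def crs (N : ℕ) (σ : Bool) : Mt N := if σ then crossP N (rt N) else crossN N (rt N)

theorem Wp_crs (σ : Bool) : Wp (crs N σ) := by
  unfold crs
  split_ifs
  · exact Wp_P _
  · exact Wp_Q _

theorem crs_EE (σ : Bool) : crs N σ * EE N = EE N * crs N σ := by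
  unfold crs
  split_ifs
  · exact PP_EE
  · exact QQ_EE

theorem act_twist : ∀ (i m : ℕ) (σ : Bool) (f : List (Fin N) → ℂ) (l : List (Fin N)),
    i + 2 ≤ l.length → Piece.act N (rt N) (.twist i σ m) f l = ob (crs N σ ^ m) i l f
  | 0, m, σ, f, l, h => by
    rcases l with _ | ⟨a, _ | ⟨b, r⟩⟩
    · simp at h
    · simp at h
    · rfl
  | i + 1, m, σ, f, l, h => by
    rcases l with _ | ⟨a, r⟩
    · simp at h
    · have := act_twist i m σ (fun r' => f (a :: r')) r (by simpa using h)
      exact this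

theorem Gd_twist {i p : ℕ} (h : i + 2 ≤ p) (m : ℕ) (σ : Bool) :
    Gd p p (Piece.act N (rt N) (.twist i σ m)) :=
  (Gd_ob (Wp_pow (Wp_crs σ) m) (pow_EE (crs_EE σ) m) i p).congr fun f l hl =>
    act_twist i m σ f l (by omega)

/-! ### cups and caps -/

theorem Eo_val (i j : Fin N) : Eo N i j =
    if (j : ℕ) = i + 1 then br (rt N) ((N : ℤ) - (j : ℕ)) else 0 := rfl

theorem brN (hN : 0 < N) (a : ℤ) : br (rt N) ((N : ℤ) - a) = br (rt N) a := by
  have h1 := rt_zpow_N hN
  unfold br
  have h2 : rt N ^ ((N : ℤ) - a) = - rt N ^ (-a) := by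
    rw [sub_eq_add_neg, zpow_add₀ (rt_ne N), h1]; ring
  have h3 : rt N ^ (-((N : ℤ) - a)) = - rt N ^ a := by
    have : -((N : ℤ) - a) = -(N : ℤ) + a := by ring
    rw [this, zpow_add₀ (rt_ne N), _root_.zpow_neg, h1]; norm_num
  rw [h2, h3]; ring

theorem brf_succ'' (v : ℂ) (n : ℕ) : brf v (n + 1) = brf v n * br v ((n : ℤ) + 1) := by
  unfold brf
  rw [Finset.prod_range_succ]

theorem kap_succ {a : ℕ} (h : a + 1 < N) :
    Pool.Agent.W709.QAT.kap N (rt N) (a + 1) * br (rt N) ((N : ℤ) - 1 - a) =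
    -(rt N ^ ((N : ℤ) - 3 - 2 * a) * br (rt N) ((a : ℤ) + 1) *
      Pool.Agent.W709.QAT.kap N (rt N) a) := by
  unfold Pool.Agent.W709.QAT.kap
  have h1 : brf (rt N) (N - 1 - a) = brf (rt N) (N - 1 - (a + 1)) * br (rt N) ((N : ℤ) - 1 - a) := by
    have h2 : N - 1 - a = (N - 1 - (a + 1)) + 1 := by omega
    rw [h2, brf_succ'']
    congr 2
    omega
  have h3 : rt N ^ ((((a + 1 : ℕ)) : ℤ) * ((N : ℤ) - 2 - ((a + 1 : ℕ) : ℤ))) =
      rt N ^ ((N : ℤ) - 3 - 2 * a) * rt N ^ ((a : ℤ) * ((N : ℤ) - 2 - a)) := by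
    rw [← zpow_add₀ (rt_ne N)]
    congr 1
    push_cast
    ring
  rw [h3, h1, brf_succ'', pow_succ]
  ring

theorem kap_ne' {a : ℕ} (h : a < N) : Pool.Agent.W709.QAT.kap N (rt N) a ≠ 0 :=
  Pool.Agent.W613.QAT.kap_ne (rt_ne N) Pool.Agent.W613.QAT.br_rt (by omega) h

theorem kx_br {b : Fin N} (c : ℤ) (h : ((b : ℕ) : ℤ) = c) : kx b = rt N ^ ((N : ℤ) - 1 - 2 * c) := by
  unfold kx
  rw [h]

/-- the cup is killed by `E` -/
theorem EE_cup (a b : Fin N) : ∑ p, EE N (a, b) p * Pool.Agent.W709.QAT.cup N (rt N) p = 0 := by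
  have hN : 0 < N := a.pos
  rw [EE_sum]
  have ha := a.2
  have hb := b.2
  by_cases hab : (a : ℕ) + b = N - 2 ∧ 2 ≤ N
  · obtain ⟨hab, hN2⟩ := hab
    rw [Finset.sum_eq_single (⟨(a : ℕ) + 1, by omega⟩ : Fin N),
      Finset.sum_eq_single (⟨(b : ℕ) + 1, by omega⟩ : Fin N)]
    · rw [Eo_val, Eo_val, if_pos rfl, if_pos rfl]
      unfold Pool.Agent.W709.QAT.cup
      have e1 : ((a : ℕ) + 1) + (b : ℕ) = N - 1 := by omega
      have e2 : (a : ℕ) + ((b : ℕ) + 1) = N - 1 := by omega
      simp only [e1, e2, if_true]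
      have h1 := kap_succ (N := N) (a := a) (by omega)
      have h2 : br (rt N) ((N : ℤ) - (((b : ℕ) + 1 : ℕ) : ℤ)) = br (rt N) ((a : ℤ) + 1) := by
        congr 1; omega
      have h3 : br (rt N) ((N : ℤ) - (((a : ℕ) + 1 : ℕ) : ℤ)) = br (rt N) ((N : ℤ) - 1 - a) := by
        congr 1; push_cast; ring
      have h4 : kx b = (rt N ^ ((N : ℤ) - 3 - 2 * a))⁻¹ := by
        rw [kx_br _ rfl, ← _root_.zpow_neg]
        congr 1
        omega
      rw [h2, h3, h4]
      have h5 : rt N ^ ((N : ℤ) - 3 - 2 * a) ≠ 0 := zpow_ne_zero _ (rt_ne N)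
      field_simp
      linear_combination h1
    · intro b' _ hb'
      rw [Eo_val, if_neg, zero_mul]
      intro h; exact hb' (Fin.ext h)
    · intro h; exact absurd (mem_univ _) h
    · intro a' _ ha'
      rw [Eo_val, if_neg]
      · ring
      intro h; exact ha' (Fin.ext h)
    · intro h; exact absurd (mem_univ _) h
  · rw [Finset.sum_eq_zero, Finset.sum_eq_zero, add_zero]
    · intro b' _
      rw [Eo_val]
      split_ifs with h
      · unfold Pool.Agent.W709.QAT.cup
        rw [if_neg, mul_zero]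
        intro h'
        apply hab
        simp only at h'
        omega
      · ring
    · intro a' _
      rw [Eo_val]
      split_ifs with h
      · unfold Pool.Agent.W709.QAT.cup
        rw [if_neg, mul_zero]
        intro h'
        apply hab
        simp only at h'
        omega
      · ring

/-- the cap kills the image of `E` -/
theorem cap_EE (c d : Fin N) : ∑ p, Pool.Agent.W709.QAT.cap N (rt N) p * EE N p (c, d) = 0 := by
  have hN : 0 < N := c.pos
  have hc := c.2
  have hd := d.2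
  have e0 : ∀ p : Fin N × Fin N, EE N p (c, d) =
      Eo N p.1 c * (if p.2 = d then kx d else 0) + (if p.1 = c then 1 else 0) * Eo N p.2 d := by
    intro p
    simp only [EE, Matrix.add_apply, Matrix.kroneckerMap_apply, Ko_apply, Matrix.one_apply]
  simp only [e0, mul_add, Finset.sum_add_distrib]
  by_cases hcd : (c : ℕ) + d = N ∧ 1 ≤ (c : ℕ) ∧ 1 ≤ (d : ℕ)
  · obtain ⟨hcd, hc1, hd1⟩ := hcd
    rw [Finset.sum_eq_single ((⟨(c : ℕ) - 1, by omega⟩, d) : Fin N × Fin N),
      Finset.sum_eq_single ((c, ⟨(d : ℕ) - 1, by omega⟩) : Fin N × Fin N)]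
    · rw [Eo_val, Eo_val, if_pos (show (c : ℕ) = ((c : ℕ) - 1) + 1 by omega), if_pos rfl,
        if_pos rfl, if_pos (show (d : ℕ) = ((d : ℕ) - 1) + 1 by omega)]
      unfold Pool.Agent.W709.QAT.cap
      have e1 : ((c : ℕ) - 1) + (d : ℕ) = N - 1 := by omega
      have e2 : (c : ℕ) + ((d : ℕ) - 1) = N - 1 := by omega
      simp only [e1, e2, if_true]
      obtain ⟨a, ha⟩ : ∃ a, (d : ℕ) = a + 1 := ⟨(d : ℕ) - 1, by omega⟩
      have h1 := kap_succ (N := N) (a := a) (by omega)
      have h2 : br (rt N) ((N : ℤ) - ((c : ℕ) : ℤ)) = br (rt N) ((a : ℤ) + 1) := by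
        congr 1; omega
      have h3 : br (rt N) ((N : ℤ) - ((d : ℕ) : ℤ)) = br (rt N) ((N : ℤ) - 1 - a) := by
        congr 1; omega
      have h4 : kx d = rt N ^ ((N : ℤ) - 3 - 2 * a) := by
        rw [kx_br _ rfl]
        congr 1
        omega
      have h5 : (d : ℕ) - 1 = a := by omega
      rw [h2, h3, h4, h5, ha]
      have h6 : Pool.Agent.W709.QAT.kap N (rt N) (a + 1) ≠ 0 := kap_ne' (by omega)
      have h7 : Pool.Agent.W709.QAT.kap N (rt N) a ≠ 0 := kap_ne' (by omega)
      field_simp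
      linear_combination h1
    · rintro ⟨p1, p2⟩ _ hp
      by_cases h : p1 = c
      · subst h
        rw [if_pos rfl, Eo_val, if_neg]
        · ring
        intro h'
        apply hp
        refine Prod.ext rfl (Fin.ext ?_)
        have h2 : (d : ℕ) = (p2 : ℕ) + 1 := h'
        show (p2 : ℕ) = (d : ℕ) - 1
        omega
      · simp only [h, if_false]
        ring
    · intro h; exact absurd (mem_univ _) h
    · rintro ⟨p1, p2⟩ _ hp
      by_cases h : p2 = d
      · subst h
        rw [if_pos rfl, Eo_val, if_neg]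
        · ring
        intro h'
        apply hp
        refine Prod.ext (Fin.ext ?_) rfl
        have h2 : (c : ℕ) = (p1 : ℕ) + 1 := h'
        show (p1 : ℕ) = (c : ℕ) - 1
        omega
      · simp only [h, if_false]
        ring
    · intro h; exact absurd (mem_univ _) h
  · rw [Finset.sum_eq_zero, Finset.sum_eq_zero, add_zero]
    · rintro ⟨p1, p2⟩ _
      by_cases h : p1 = c
      · subst h
        rw [if_pos rfl, Eo_val]
        split_ifs with h'
        · unfold Pool.Agent.W709.QAT.cap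
          rw [if_neg]
          · ring
          intro h''
          apply hcd
          simp only at h' h''
          omega
        · ring
      · simp only [h, if_false]
        ring
    · rintro ⟨p1, p2⟩ _
      by_cases h : p2 = d
      · subst h
        rw [if_pos rfl, Eo_val]
        split_ifs with h'
        · unfold Pool.Agent.W709.QAT.cap
          rw [if_neg]
          · ring
          intro h''
          apply hcd
          simp only at h' h''
          omega
        · ring
      · simp only [h, if_false]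
        ring

theorem kl_cup {a b : Fin N} (h : (a : ℕ) + b = N - 1) (r : List (Fin N)) :
    kl (a :: b :: r) = kl r := by
  have hN : 0 < N := a.pos
  have : kx a * kx b = 1 := by
    unfold kx
    rw [← zpow_add₀ (rt_ne N)]
    have : (N : ℤ) - 1 - 2 * ((a : ℕ) : ℤ) + ((N : ℤ) - 1 - 2 * ((b : ℕ) : ℤ)) = 0 := by omega
    rw [this, _root_.zpow_zero]
  rw [kl, kl, ← mul_assoc, this, one_mul]

/-- `EL` on two strands and the rest -/
theorem EL_two (a b : Fin N) (r : List (Fin N)) (f : List (Fin N) → ℂ) :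
    EL (a :: b :: r) f = kl r * ∑ p, EE N (a, b) p * f (p.1 :: p.2 :: r) +
      EL r (fun r' => f (a :: b :: r')) := by
  rw [EE_sum a b (fun p => f (p.1 :: p.2 :: r))]
  simp only [EL, kl]
  rw [mul_add, Finset.mul_sum, Finset.mul_sum, add_assoc]
  congr 1
  · exact Finset.sum_congr rfl fun a' _ => by ring
  · congr 1
    exact Finset.sum_congr rfl fun b' _ => by ring

theorem Gd_cup0 (p : ℕ) : Gd (N := N) (p + 2) p (Piece.act N (rt N) (.cup 0)) where
  add f g l hl := by
    rcases l with _ | ⟨a, _ | ⟨b, r⟩⟩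
    · simp at hl
    · simp at hl
    · show Pool.Agent.W709.QAT.cup N (rt N) (a, b) * (f r + g r) = _ * f r + _ * g r
      ring
  smul c f l hl := by
    rcases l with _ | ⟨a, _ | ⟨b, r⟩⟩
    · simp at hl
    · simp at hl
    · show Pool.Agent.W709.QAT.cup N (rt N) (a, b) * (c * f r) = c * (_ * f r)
      ring
  loc f g l hl h := by
    rcases l with _ | ⟨a, _ | ⟨b, r⟩⟩
    · simp at hl
    · simp at hl
    · show Pool.Agent.W709.QAT.cup N (rt N) (a, b) * f r = _ * g r
      by_cases hab : (a : ℕ) + b = N - 1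
      · rw [h r (by simpa using hl) (kl_cup hab r).symm]
      · unfold Pool.Agent.W709.QAT.cup
        rw [if_neg hab, zero_mul, zero_mul]
  comm f l hl := by
    rcases l with _ | ⟨a, _ | ⟨b, r⟩⟩
    · simp at hl
    · simp at hl
    · rw [EL_two]
      have e1 : ∀ p : Fin N × Fin N, Piece.act N (rt N) (.cup 0) f (p.1 :: p.2 :: r) =
          Pool.Agent.W709.QAT.cup N (rt N) p * f r := fun p => rfl
      have e2 : ∀ r' : List (Fin N), Piece.act N (rt N) (.cup 0) f (a :: b :: r') =
          Pool.Agent.W709.QAT.cup N (rt N) (a, b) * f r' := fun r' => rfl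
      simp only [e1, e2]
      rw [EL_smul]
      have e3 : ∑ p, EE N (a, b) p * (Pool.Agent.W709.QAT.cup N (rt N) p * f r) = 0 := by
        have h := EE_cup a b
        have h2 : ∑ p, EE N (a, b) p * (Pool.Agent.W709.QAT.cup N (rt N) p * f r) =
            (∑ p, EE N (a, b) p * Pool.Agent.W709.QAT.cup N (rt N) p) * f r := by
          rw [Finset.sum_mul]
          exact Finset.sum_congr rfl fun p _ => by ring
        rw [h2, h, zero_mul]
      rw [e3, mul_zero, zero_add]
      rfl

theorem Gd_cap0 (p : ℕ) : Gd (N := N) p (p + 2) (Piece.act N (rt N) (.cap 0)) where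
  add f g l _ := by
    show ∑ p : Fin N × Fin N, Pool.Agent.W709.QAT.cap N (rt N) p * (f (p.1 :: p.2 :: l) +
      g (p.1 :: p.2 :: l)) = (∑ p : Fin N × Fin N, _ * f (p.1 :: p.2 :: l)) +
      ∑ p : Fin N × Fin N, _ * g (p.1 :: p.2 :: l)
    rw [← Finset.sum_add_distrib]
    exact Finset.sum_congr rfl fun p _ => by ring
  smul c f l _ := by
    show ∑ p : Fin N × Fin N, Pool.Agent.W709.QAT.cap N (rt N) p * (c * f (p.1 :: p.2 :: l)) =
      c * ∑ p : Fin N × Fin N, _ * f (p.1 :: p.2 :: l)
    rw [Finset.mul_sum]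
    exact Finset.sum_congr rfl fun p _ => by ring
  loc f g l hl h := by
    show ∑ p : Fin N × Fin N, Pool.Agent.W709.QAT.cap N (rt N) p * f (p.1 :: p.2 :: l) =
      ∑ p : Fin N × Fin N, _ * g (p.1 :: p.2 :: l)
    refine Finset.sum_congr rfl fun p _ => ?_
    by_cases hp : (p.1 : ℕ) + p.2 = N - 1
    · rw [h (p.1 :: p.2 :: l) (by simp [hl]) (kl_cup hp l)]
    · unfold Pool.Agent.W709.QAT.cap
      rw [if_neg hp, zero_mul, zero_mul]
  comm f l _ := by
    have e1 : EL l (Piece.act N (rt N) (.cap 0) f) =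
        ∑ p : Fin N × Fin N, Pool.Agent.W709.QAT.cap N (rt N) p *
          EL l (fun l' => f (p.1 :: p.2 :: l')) := by
      have : (Piece.act N (rt N) (.cap 0) f) = fun l' => ∑ p : Fin N × Fin N,
          Pool.Agent.W709.QAT.cap N (rt N) p * f (p.1 :: p.2 :: l') := rfl
      rw [this, EL_sum]
      exact Finset.sum_congr rfl fun p _ => EL_smul _ _ _
    have e2 : Piece.act N (rt N) (.cap 0) (fun l' => EL l' f) l =
        ∑ p : Fin N × Fin N, Pool.Agent.W709.QAT.cap N (rt N) p * EL (p.1 :: p.2 :: l) f := rfl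
    rw [e1, e2]
    have e3 : ∀ p : Fin N × Fin N, EL (p.1 :: p.2 :: l) f =
        kl l * ∑ q, EE N p q * f (q.1 :: q.2 :: l) + EL l (fun r' => f (p.1 :: p.2 :: r')) :=
      fun p => EL_two p.1 p.2 l f
    simp only [e3, mul_add, Finset.sum_add_distrib]
    have e4 : ∑ p : Fin N × Fin N, Pool.Agent.W709.QAT.cap N (rt N) p *
        (kl l * ∑ q, EE N p q * f (q.1 :: q.2 :: l)) = 0 := by
      have : ∀ p : Fin N × Fin N, Pool.Agent.W709.QAT.cap N (rt N) p *
          (kl l * ∑ q, EE N p q * f (q.1 :: q.2 :: l)) =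
          ∑ q : Fin N × Fin N, kl l * f (q.1 :: q.2 :: l) *
            (Pool.Agent.W709.QAT.cap N (rt N) p * EE N p q) := by
        intro p
        rw [Finset.mul_sum, Finset.mul_sum]
        exact Finset.sum_congr rfl fun q _ => by ring
      simp only [this]
      rw [Finset.sum_comm]
      refine Finset.sum_eq_zero fun q _ => ?_
      rw [← Finset.mul_sum, cap_EE q.1 q.2, mul_zero]
    rw [e4, zero_add]

theorem Gd_cup : ∀ (i p : ℕ), i ≤ p → Gd (N := N) (p + 2) p (Piece.act N (rt N) (.cup i))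
  | 0, p, _ => Gd_cup0 p
  | i + 1, 0, h => by omega
  | i + 1, p + 1, h => by
    refine (Gd_cup i p (by omega)).sh.congr fun f l hl => ?_
    rcases l with _ | ⟨a, r⟩
    · simp at hl
    · rfl

theorem Gd_cap : ∀ (i p : ℕ), i ≤ p → Gd (N := N) p (p + 2) (Piece.act N (rt N) (.cap i))
  | 0, p, _ => Gd_cap0 p
  | i + 1, 0, h => by omega
  | i + 1, p + 1, h => by
    refine (Gd_cap i p (by omega)).sh.congr fun f l hl => ?_
    rcases l with _ | ⟨a, r⟩
    · simp at hl
    · rfl

end Pool.Agent.Q191.TB
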