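import Pool.Agent.Q191.TB.Gd

/-!
Tangles in the thickened annulus around a strand coloured `N`: the operator on the vectors killed by
`E`, its trace and its growth.
-/

set_option autoImplicit false

namespace Pool.Agent.Q191.TB

open Matrix Finset Pool.Agent.H550R3.Jones Pool.Agent.Q191.TW
open Pool.Agent.W715.VC hiding dl winv
open Pool.Agent.W709.QAT (Piece)

variable {N : ℕ}

/-- the matrix of an operator -/
noncomputable def mg (p p' : ℕ) (O : (List (Fin N) → ℂ) → List (Fin N) → ℂ) :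
    Matrix (Fin p → Fin N) (Fin p' → Fin N) ℂ :=
  fun s t => O (dl (List.ofFn t)) (List.ofFn s)

theorem expand {p : ℕ} (f : List (Fin N) → ℂ) (l : List (Fin N)) (hl : l.length = p) :
    f l = ∑ t : Fin p → Fin N, f (List.ofFn t) * dl (List.ofFn t) l := by
  obtain ⟨u, rfl⟩ := exists_ofFn l hl
  rw [Finset.sum_eq_single u]
  · simp [dl]
  · intro t _ ht
    rw [dl, if_neg (fun h => ht (ofFn_inj.1 h).symm), mul_zero]
  · intro h; exact absurd (mem_univ _) h

theorem Gd.apply {p p' : ℕ} {O : (List (Fin N) → ℂ) → List (Fin N) → ℂ} (h : Gd p p' O)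
    (s : Fin p → Fin N) (f : List (Fin N) → ℂ) :
    O f (List.ofFn s) = ∑ t, mg p p' O s t * f (List.ofFn t) := by
  have hs : (List.ofFn s).length = p := List.length_ofFn
  rw [h.loc f (fun l => ∑ t : Fin p' → Fin N, f (List.ofFn t) * dl (List.ofFn t) l) _ hs
    fun l' hl' _ => expand f l' hl', h.sum _ _ _ hs]
  refine Finset.sum_congr rfl fun t _ => ?_
  rw [h.smul _ _ _ hs, mul_comm]
  rfl

/-- `H` is the operator on the vectors killed by `E`, with the label `0` on the first strand -/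
def HatG (p p' : ℕ) (O : (List (Fin N) → ℂ) → List (Fin N) → ℂ)
    (H : Matrix (Fin p → Fin N) (Fin p' → Fin N) ℂ) : Prop :=
  ∀ f : List (Fin N) → ℂ, (∀ l, l.length = p' + 1 → EL l f = 0) → ∀ z : Fin N, (z : ℕ) = 0 →
    ∀ s : Fin p → Fin N, O f (z :: List.ofFn s) = ∑ t, H s t * f (z :: List.ofFn t)

theorem HatG_id (p : ℕ) : HatG (N := N) p p (fun f => f) 1 := by
  intro f _ z _ s
  simp only [Matrix.one_apply, ite_mul, one_mul, zero_mul]
  rw [Finset.sum_ite_eq]
  simp

theorem HatG.comp {p p' p'' : ℕ} {O O' : (List (Fin N) → ℂ) → List (Fin N) → ℂ}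
    {H : Matrix (Fin p → Fin N) (Fin p' → Fin N) ℂ}
    {H' : Matrix (Fin p' → Fin N) (Fin p'' → Fin N) ℂ} (h : HatG p p' O H)
    (hO' : Gd (p' + 1) (p'' + 1) O') (h' : HatG p' p'' O' H') :
    HatG p p'' (fun f => O (O' f)) (H * H') := by
  intro f hf z hz s
  have hE : ∀ l, l.length = p' + 1 → EL l (O' f) = 0 := by
    intro l hl
    rw [hO'.comm f l hl, hO'.loc _ (fun _ => 0) l hl fun l' hl' _ => hf l' hl', hO'.zero l hl]
  show O (O' f) (z :: List.ofFn s) = _
  rw [h (O' f) hE z hz s]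
  have h1 : ∀ t, O' f (z :: List.ofFn t) = ∑ u, H' t u * f (z :: List.ofFn u) :=
    fun t => h' f hf z hz t
  simp only [h1, Finset.mul_sum, Matrix.mul_apply, Finset.sum_mul]
  rw [Finset.sum_comm]
  exact Finset.sum_congr rfl fun u _ => Finset.sum_congr rfl fun t _ => by ring

theorem HatG.congr {p p' : ℕ} {O O' : (List (Fin N) → ℂ) → List (Fin N) → ℂ}
    {H : Matrix (Fin p → Fin N) (Fin p' → Fin N) ℂ} (h : HatG p p' O H)
    (e : ∀ f l, l.length = p + 1 → O' f l = O f l) : HatG p p' O' H := by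
  intro f hf z hz s
  rw [e f _ (by simp)]
  exact h f hf z hz s

/-- operators which do not involve the first strand -/
theorem HatG_sh {p p' : ℕ} {O : (List (Fin N) → ℂ) → List (Fin N) → ℂ} (h : Gd p p' O) :
    HatG p p' (sh1 O) (mg p p' O) := by
  intro f _ z _ s
  exact h.apply s (fun r => f (z :: r))

/-! ### the trace -/

theorem trace_hatG (hN : 0 < N) {p : ℕ} {O : (List (Fin N) → ℂ) → List (Fin N) → ℂ}
    (hO : Gd (p + 1) (p + 1) O) {H : Matrix (Fin p → Fin N) (Fin p → Fin N) ℂ}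
    (h : HatG p p O H) : (mg (p + 1) (p + 1) O).trace = N * H.trace := by
  set G' := mg (p + 1) (p + 1) O with hG'
  have htr : G'.trace = (G'.submatrix (ce N p) (ce N p)).trace := by
    rw [Matrix.trace, Matrix.trace, ← Equiv.sum_comp (ce N p)]
    rfl
  rw [htr]
  have hcomm : G' * EM N (p + 1) = EM N (p + 1) * G' := by
    ext s t
    have h1 : (G' * EM N (p + 1)) s t = O (fun l' => EL l' (dl (List.ofFn t))) (List.ofFn s) := by
      rw [hO.apply, Matrix.mul_apply]
      rfl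
    have h2 : (EM N (p + 1) * G') s t = EL (List.ofFn s) (O (dl (List.ofFn t))) := by
      rw [mx_apply Lop_EL, Matrix.mul_apply]
      rfl
    rw [h1, h2, hO.comm _ _ (by simp)]
  refine trace_ker hN (fun s => kl (List.ofFn s)) (fun s => kl_ne _) (EM N p) ?_ _ ?_ H ?_
  · rw [← EM_succ, ← submatrix_pow, EM_nil hN]
    rfl
  · rw [← EM_succ, Matrix.submatrix_mul_equiv, hcomm, ← Matrix.submatrix_mul_equiv _ _ _ (ce N p)]
  · intro x hx s
    set f : List (Fin N) → ℂ := fun l => ∑ q : Fin N × (Fin p → Fin N),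
      x q * dl (List.ofFn (ce N p q)) l with hf
    have hfx : ∀ q, f (List.ofFn (ce N p q)) = x q := by
      intro q
      simp only [hf]
      rw [Finset.sum_eq_single q]
      · simp [dl]
      · intro r _ hr
        rw [dl, if_neg, mul_zero]
        intro h1
        exact hr ((ce N p).injective (ofFn_inj.1 h1)).symm
      · intro h; exact absurd (mem_univ _) h
    have happE : ∀ q, EL (List.ofFn (ce N p q)) f =
        (((mx (p + 1) EL).submatrix (ce N p) (ce N p)) *ᵥ x) q := by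
      intro q
      rw [mx_apply Lop_EL, ← Equiv.sum_comp (ce N p), Matrix.mulVec, dotProduct]
      exact Finset.sum_congr rfl fun r _ => by rw [hfx, Matrix.submatrix_apply]
    have happO : ∀ q, O f (List.ofFn (ce N p q)) =
        ((G'.submatrix (ce N p) (ce N p)) *ᵥ x) q := by
      intro q
      rw [hO.apply, ← Equiv.sum_comp (ce N p), Matrix.mulVec, dotProduct]
      exact Finset.sum_congr rfl fun r _ => by rw [hfx, Matrix.submatrix_apply]
    have hE0 : ∀ l, l.length = p + 1 → EL l f = 0 := by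
      intro l hl
      obtain ⟨u, rfl⟩ := exists_ofFn l hl
      obtain ⟨q, rfl⟩ := (ce N p).surjective u
      rw [happE]
      have : (mx (p + 1) EL).submatrix (ce N p) (ce N p) = Em (fun s => kl (List.ofFn s)) (EM N p) :=
        EM_succ p
      rw [this, hx]
      rfl
    have h2 := h f hE0 ⟨0, hN⟩ rfl s
    rw [← ce_apply p (⟨0, hN⟩, s), happO] at h2
    rw [h2, Matrix.mulVec, dotProduct]
    refine Finset.sum_congr rfl fun t _ => ?_
    rw [← ce_apply p (⟨0, hN⟩, t), hfx]

/-! ### words of crossings -/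

/-- the pieces of a word, from bottom to top -/
def wp (w : List (ℕ × Bool)) : List Piece := w.reverse.map fun g => Piece.twist g.1 g.2 1

theorem wp_append (w w' : List (ℕ × Bool)) : wp (w ++ w') = wp w' ++ wp w := by
  simp [wp]

theorem run_app (v : ℂ) (D D' : List Piece) (f : List (Fin N) → ℂ) :
    Pool.Agent.W709.QAT.run N v (D ++ D') f =
      Pool.Agent.W709.QAT.run N v D' (Pool.Agent.W709.QAT.run N v D f) := by
  simp [Pool.Agent.W709.QAT.run]

/-- the operator of a word -/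
theorem run_wp : ∀ (w : List (ℕ × Bool)) (f : List (Fin N) → ℂ) (l : List (Fin N)),
    (∀ g ∈ w, g.1 + 2 ≤ l.length) → Pool.Agent.W709.QAT.run N (rt N) (wp w) f l = run w l f
  | [], f, l, _ => rfl
  | g :: w, f, l, h => by
    have h1 : wp (g :: w) = wp w ++ [Piece.twist g.1 g.2 1] := by simp [wp]
    rw [h1, run_app]
    show Piece.act N (rt N) (.twist g.1 g.2 1) (Pool.Agent.W709.QAT.run N (rt N) (wp w) f) l = _
    rw [act_twist _ _ _ _ _ (h g (by simp)), pow_one]
    show ob (crs N g.2) g.1 l _ = ob (if g.2 then PP N else QQ N) g.1 l (fun l' => run w l' f)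
    have h2 : crs N g.2 = if g.2 then PP N else QQ N := rfl
    rw [h2]
    refine ob_loc _ _ _ _ _ fun l' hl' => ?_
    exact run_wp w f l' fun g' hg' => by rw [hl']; exact h g' (by simp [hg'])

theorem Gd_run (p : ℕ) : ∀ w : List (ℕ × Bool), Gd (N := N) p p (fun f l => run w l f)
  | [] => Gd_id p
  | g :: w => by
    have h2 : (if g.2 then PP N else QQ N) = crs N g.2 := rfl
    have h3 : (if g.2 then PP N else QQ N) * EE N = EE N * (if g.2 then PP N else QQ N) := by
      rw [h2]; exact crs_EE g.2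
    have h4 : Wp (if g.2 then PP N else QQ N) := by rw [h2]; exact Wp_crs g.2
    exact (Gd_ob h4 h3 g.1 p).comp (Gd_run p w)

theorem Gd_wp {p : ℕ} {w : List (ℕ × Bool)} (h : ∀ g ∈ w, g.1 + 2 ≤ p) :
    Gd (N := N) p p (Pool.Agent.W709.QAT.run N (rt N) (wp w)) :=
  (Gd_run p w).congr fun f l hl => run_wp w f l (by rw [hl]; exact h)

/-! ### steps -/

/-- operators of tangles on `p'` strands below and `p` strands above, around a first strand, with a
bound -/
structure Step (p p' : ℕ) (O : (List (Fin N) → ℂ) → List (Fin N) → ℂ) (c : ℝ) : Prop where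
  gd : Gd (p + 1) (p' + 1) O
  nn : 0 ≤ c
  hat : ∃ H, HatG p p' O H ∧ ∀ s t, ‖H s t‖ ≤ c

theorem Step_id (p : ℕ) : Step (N := N) p p (fun f => f) 1 := by
  refine ⟨Gd_id _, zero_le_one, 1, HatG_id p, fun s t => ?_⟩
  rw [Matrix.one_apply]
  split_ifs <;> simp

theorem Step.comp {p p' p'' : ℕ} {O O' : (List (Fin N) → ℂ) → List (Fin N) → ℂ} {c c' : ℝ}
    (h : Step p p' O c) (h' : Step p' p'' O' c') :
    Step p p'' (fun f => O (O' f)) ((N : ℝ) ^ p' * (c * c')) := by
  obtain ⟨g, n, H, hH, hb⟩ := h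
  obtain ⟨g', n', H', hH', hb'⟩ := h'
  refine ⟨g.comp g', by positivity, H * H', hH.comp g' hH', fun s t => ?_⟩
  rw [Matrix.mul_apply]
  refine (_root_.norm_sum_le _ _).trans ?_
  refine (Finset.sum_le_sum (fun u _ => (norm_mul_le _ _).trans
    (mul_le_mul (hb s u) (hb' u t) (norm_nonneg _) n))).trans ?_
  rw [Finset.sum_const, nsmul_eq_mul, Finset.card_univ, Fintype.card_fun, Fintype.card_fin,
    Fintype.card_fin]
  push_cast
  exact le_rfl

theorem Step.mono {p p' : ℕ} {O : (List (Fin N) → ℂ) → List (Fin N) → ℂ} {c c' : ℝ}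
    (h : Step p p' O c) (hc : c ≤ c') : Step p p' O c' := by
  obtain ⟨g, n, H, hH, hb⟩ := h
  exact ⟨g, n.trans hc, H, hH, fun s t => (hb s t).trans hc⟩

theorem Step.congr {p p' : ℕ} {O O' : (List (Fin N) → ℂ) → List (Fin N) → ℂ} {c : ℝ}
    (h : Step p p' O c) (e : ∀ f l, l.length = p + 1 → O' f l = O f l) : Step p p' O' c := by
  obtain ⟨g, n, H, hH, hb⟩ := h
  exact ⟨g.congr e, n, H, hH.congr e, hb⟩

theorem norm_dl (t l : List (Fin N)) : ‖dl t l‖ ≤ 1 := by
  unfold dl
  split_ifs <;> simp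

/-- pieces away from the first strand -/
theorem Step_piece {ε : ℝ} (hN : 1 ≤ N)
    (hTW : ∀ m : ℕ, ∀ p q : Fin N × Fin N, ‖(PP N ^ m) p q‖ ≤ Pool.Agent.W28.QAT.wt N ε m ∧
      ‖(QQ N ^ m) p q‖ ≤ Pool.Agent.W28.QAT.wt N ε m) {p p' : ℕ} (P : Piece)
    (h : Gd (N := N) p p' (Piece.act N (rt N) P)) :
    Step p p' (sh1 (Piece.act N (rt N) P)) (Pool.Agent.W28.QAT.cost N ε P) := by
  refine ⟨h.sh, Pool.Agent.W28.QAT.cost_nonneg N ε P, _, HatG_sh h, fun s t => ?_⟩
  have := Pool.Agent.W28.QAT.act_bound hN hTW P (dl (List.ofFn t)) 1 zero_le_one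
    (fun l => norm_dl _ l) (List.ofFn s)
  rwa [one_mul] at this

theorem norm_Phi (m x T : ℕ) : ‖Phi N m x T‖ = 1 := by
  unfold Phi phx
  rw [norm_mul, norm_mul, norm_rt_zpow, norm_rt_zpow, norm_rt_zpow]
  norm_num

theorem rotW_mem {m : ℕ} {g : ℕ × Bool} (hg : g ∈ rotW (m + 1)) : g.1 + 2 ≤ m + 1 + 1 := by
  simp only [rotW, List.mem_append, List.mem_map, List.mem_reverse, List.mem_range,
    List.mem_singleton] at hg
  rcases hg with ⟨k, hk, rfl⟩ | rfl
  · show k + 2 ≤ _
    omega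
  · show 0 + 2 ≤ _
    omega

theorem winv_mem {w : List (ℕ × Bool)} {k : ℕ} (h : ∀ g ∈ w, g.1 + 2 ≤ k) {g : ℕ × Bool}
    (hg : g ∈ winv w) : g.1 + 2 ≤ k := by
  simp only [winv, List.mem_reverse, List.mem_map] at hg
  obtain ⟨g', hg', rfl⟩ := hg
  exact h g' hg'

/-- the strand number `1` passes around the first strand, and to the end -/
theorem Step_rot (m : ℕ) :
    Step (N := N) (m + 1) (m + 1) (Pool.Agent.W709.QAT.run N (rt N) (wp (rotW (m + 1)))) 1 := by
  refine ⟨Gd_wp fun g hg => rotW_mem hg, zero_le_one, Rm N m, ?_, fun s t => ?_⟩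
  · have h : HatG (m + 1) (m + 1) (fun f l => run (rotW (m + 1)) l f) (Rm N m) := Hat_rotW m
    exact h.congr fun f l hl => run_wp _ f l fun g hg => by rw [hl]; exact rotW_mem hg
  · unfold Rm
    split_ifs
    · rw [norm_Phi]
    · simp

theorem Step_rotI (m : ℕ) :
    Step (N := N) (m + 1) (m + 1) (Pool.Agent.W709.QAT.run N (rt N) (wp (winv (rotW (m + 1)))))
      1 := by
  have hw : ∀ g ∈ winv (rotW (m + 1)), g.1 + 2 ≤ m + 1 + 1 :=
    fun g hg => winv_mem (fun g hg => rotW_mem hg) hg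
  refine ⟨Gd_wp hw, zero_le_one, Um N m, ?_, fun s t => ?_⟩
  · have h : HatG (m + 1) (m + 1) (fun f l => run (winv (rotW (m + 1))) l f) (Um N m) := Hat_rotI m
    exact h.congr fun f l hl => run_wp _ f l fun g hg => by rw [hl]; exact hw g hg
  · unfold Um
    split_ifs
    · rw [norm_inv, norm_Phi, inv_one]
    · simp

/-! ### the axis -/

theorem axisW_mem {k : ℕ} {g : ℕ × Bool} (hg : g ∈ axisW k) : g.1 + 2 ≤ k + 1 := by
  simp only [axisW, axU_eq, axD_eq, List.mem_append, List.mem_map, List.mem_reverse,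
    List.mem_range] at hg
  rcases hg with ⟨j, hj, rfl⟩ | ⟨j, hj, rfl⟩
  · show j + 2 ≤ _
    omega
  · show j + 2 ≤ _
    omega

/-- **The axis**: the quantum trace with the axis is the trace. -/
theorem axis_val (k : ℕ) {O : (List (Fin N) → ℂ) → List (Fin N) → ℂ} (hO : Gd k k O) (z : Fin N)
    (hz : (z : ℕ) = 0) :
    ∑ s : Fin k → Fin N, (∏ x, rt N ^ ((N : ℤ) - 1 - 2 * (s x : ℕ))) *
      Pool.Agent.W709.QAT.run N (rt N) (wp (axisW k)) (sh1 O (dl (z :: List.ofFn s)))
        (z :: List.ofFn s) =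
      rt N ^ (-(k : ℤ) * ((N : ℤ) - 1)) * (mg k k O).trace := by
  have hN : 0 < N := z.pos
  have h0 := rt_ne N
  have hkey : ∀ s : Fin k → Fin N,
      Pool.Agent.W709.QAT.run N (rt N) (wp (axisW k)) (sh1 O (dl (z :: List.ofFn s)))
        (z :: List.ofFn s) = cax (List.ofFn s) * cax (List.ofFn s) * mg k k O s s := by
    intro s
    rw [run_wp _ _ _ fun g hg => by simpa using axisW_mem hg]
    have hl : z :: List.ofFn s = List.ofFn (Fin.cons z s : Fin (k + 1) → Fin N) := by
      rw [List.ofFn_cons]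
    rw [hl, mx_apply (Lop_run (axisW k)), ← rep_mx, Pool.Agent.H229R3.J.sum_cons, sum_eq_single z,
      sum_eq_single s]
    · rw [axis_ent z hz, if_pos rfl, List.ofFn_cons]
      congr 1
      show O (fun r' => dl (z :: List.ofFn s) (z :: r')) (List.ofFn s) = O (dl (List.ofFn s)) _
      refine hO.loc _ _ _ (by simp) fun l' _ _ => ?_
      rw [dl_cons, if_pos rfl, one_mul]
    · intro t _ ht
      rw [axis_ent z hz, if_neg (Ne.symm ht), zero_mul]
    · intro h; exact absurd (mem_univ _) h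
    · intro a _ ha
      refine sum_eq_zero fun t _ => ?_
      have : sh1 O (dl (List.ofFn (Fin.cons z s : Fin (k + 1) → Fin N)))
          (List.ofFn (Fin.cons a t : Fin (k + 1) → Fin N)) = 0 := by
        rw [List.ofFn_cons, List.ofFn_cons]
        show O (fun r' => dl (z :: List.ofFn s) (a :: r')) (List.ofFn t) = 0
        rw [hO.loc _ (fun _ => 0) _ (by simp) fun l' _ _ => by
          rw [dl_cons, if_neg ha, zero_mul]]
        exact hO.zero _ (by simp)
      rw [this, mul_zero]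
    · intro h; exact absurd (mem_univ _) h
  rw [Matrix.trace, mul_sum]
  refine sum_congr rfl fun s _ => ?_
  rw [hkey s, ← mul_assoc]
  have h5 : ∏ x, rt N ^ ((N : ℤ) - 1 - 2 * ((s x : ℕ) : ℤ)) = kl (List.ofFn s) := prod_kx s
  rw [h5]
  congr 1
  rw [kl_eq, cax]
  simp only [← zpow_add₀ h0]
  have h2N : rt N ^ (2 * (N : ℤ)) = 1 := by
    rw [mul_comm, _root_.zpow_mul, rt_zpow_N hN]; norm_num
  have hexp : ((List.ofFn s).length : ℤ) * ((N : ℤ) - 1) - 2 * (wl (List.ofFn s) : ℤ) +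
      (-((N : ℤ) - 1) * (((List.ofFn s).length : ℤ) + wl (List.ofFn s)) +
        -((N : ℤ) - 1) * (((List.ofFn s).length : ℤ) + wl (List.ofFn s))) =
      -(k : ℤ) * ((N : ℤ) - 1) + 2 * (N : ℤ) * (-(wl (List.ofFn s) : ℤ)) := by
    rw [List.length_ofFn]
    ring
  rw [hexp, zpow_add₀ h0, _root_.zpow_mul (rt N) (2 * (N : ℤ)), h2N, _root_.one_zpow, mul_one]

/-- the bound of the closure -/
theorem close_bound {n : ℕ} {O : (List (Fin N) → ℂ) → List (Fin N) → ℂ} {c : ℝ}
    (h : Step n n O c) (z : Fin N) (hz : (z : ℕ) = 0) :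
    ‖∑ s : Fin (n + 1) → Fin N, (∏ x, rt N ^ ((N : ℤ) - 1 - 2 * (s x : ℕ))) *
      Pool.Agent.W709.QAT.run N (rt N) (wp (axisW (n + 1))) (sh1 O (dl (z :: List.ofFn s)))
        (z :: List.ofFn s)‖ ≤ (N : ℝ) ^ (n + 1) * c := by
  have hN : 0 < N := z.pos
  obtain ⟨g, nn, H, hH, hb⟩ := h
  rw [axis_val (n + 1) g z hz, trace_hatG hN g hH, norm_mul, norm_rt_zpow, one_mul, norm_mul]
  have h1 : ‖H.trace‖ ≤ (N : ℝ) ^ n * c := by
    rw [Matrix.trace]
    refine (_root_.norm_sum_le _ _).trans ((Finset.sum_le_sum fun s _ => hb s s).trans ?_)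
    rw [Finset.sum_const, nsmul_eq_mul, Finset.card_univ, Fintype.card_fun, Fintype.card_fin,
      Fintype.card_fin]
    push_cast
    exact le_rfl
  rw [Complex.norm_natCast, pow_succ, mul_comm ((N : ℝ) ^ n), mul_assoc]
  exact mul_le_mul_of_nonneg_left h1 (Nat.cast_nonneg N)

end Pool.Agent.Q191.TB
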